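import Pool.Agent.Helper54.TY.Transp

/-!
MP_8ee768_co, project TH-Y', stage S: the fields of the pair word are bytes.
-/

set_option autoImplicit false
namespace Pool.Agent.Helper54.TY

open Finset
open Pool.Agent.Helper89.CV (OddCover ofMask)
open Pool.Agent.Helper97.CV Pool.Agent.Helper79.CV Pool.Agent.Helper33.TY
open Pool.Agent.Helper25.TY (R11 mem_R11)

theorem cnt_quad_le {B : Finset (Finset (Fin 13))} (hB : OddCover B) {q : Finset (Fin 13)}
    (hq : q.card = 4) : cnt B q ≤ 9 := by
  have h : B.filter (fun b => q ⊆ b) ⊆ qᶜ.image fun v => insert v q := by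
    intro b hb
    rw [mem_filter] at hb
    have hc : (b \ q).card = 1 := by
      rw [card_sdiff_of_subset hb.2, hB.1 b hb.1, hq]
    obtain ⟨v, hv⟩ := card_eq_one.1 hc
    have hv1 : v ∈ b \ q := by rw [hv]; exact mem_singleton_self v
    rw [mem_sdiff] at hv1
    rw [mem_image]
    refine ⟨v, mem_compl.2 hv1.2, ?_⟩
    rw [← union_sdiff_of_subset hb.2, hv, union_comm, ← insert_eq]
  refine (card_le_card h).trans (card_image_le.trans ?_)
  rw [card_compl13 hq]

theorem ex_le_four {B : Finset (Finset (Fin 13))} (hB : OddCover B) {q : Finset (Fin 13)}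
    (hq : q.card = 4) : ex B q ≤ 4 := by
  have h := cnt_quad_le hB hq
  unfold ex
  omega

theorem card_quads_pair {s : Finset (Fin 13)} (hs : s.card = 2) :
    (quads.filter fun q => s ⊆ q).card = 55 := by
  have h0 : (quads.filter fun q => s ⊆ q).card = LamW (fun _ => 1) s := by
    unfold LamW
    rw [card_eq_sum_ones]
  have h1 := LamW_rec (fun _ => 1) s
  have h2 : ∀ v ∈ sᶜ, LamW (fun _ => 1) (insert v s) = 10 := by
    intro v hv
    have h3 : (insert v s).card = 3 := by
      rw [card_insert_of_notMem (mem_compl.1 hv), hs]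
    have h4 := LamW_rec (fun _ => 1) (insert v s)
    have h5 : ∀ w ∈ (insert v s)ᶜ, LamW (fun _ => 1) (insert w (insert v s)) = 1 := by
      intro w hw
      refine LamW_quad _ ?_
      rw [card_insert_of_notMem (mem_compl.1 hw), h3]
    rw [sum_congr rfl h5, sum_const, card_compl13 h3, h3] at h4
    simp only [smul_eq_mul] at h4
    omega
  rw [sum_congr rfl h2, sum_const, card_compl13 hs, hs] at h1
  simp only [smul_eq_mul] at h1
  omega

theorem Lam_le {B : Finset (Finset (Fin 13))} (hB : OddCover B) {s : Finset (Fin 13)}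
    (hs : s.card = 2) : Lam B s ≤ 220 := by
  unfold Lam LamW
  calc ∑ q ∈ quads.filter (fun q => s ⊆ q), ex B q
      ≤ ∑ _q ∈ quads.filter (fun q => s ⊆ q), 4 :=
        sum_le_sum fun q hq => ex_le_four hB (mem_quads.1 (mem_filter.1 hq).1)
    _ = 220 := by rw [sum_const, card_quads_pair hs, smul_eq_mul]

theorem P1_le_Lam (B : Finset (Finset (Fin 13))) (s : Finset (Fin 13)) : P1 B s ≤ Lam B s := by
  unfold P1 Lam LamW
  refine sum_le_sum_of_subset fun q hq => ?_
  rw [mem_filter] at hq ⊢
  exact ⟨hq.1, hq.2.1⟩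

/-- the fields are bytes -/
theorem qf_lt {B : Finset (Finset (Fin 13))} (hB : OddCover B) {f : Finset (Fin 13) → ℕ}
    (hf : ∀ s, f s ≤ 1) {s : Finset (Fin 13)} (hs : s ⊆ R11) : qf B f s < 256 := by
  unfold qf
  by_cases h4 : s.card = 4
  · rw [if_pos h4]
    split_ifs <;> omega
  rw [if_neg h4]
  by_cases h3 : s.card = 3
  · rw [if_pos h3]
    split_ifs <;> omega
  rw [if_neg h3]
  by_cases h2 : s.card = 2
  · rw [if_pos h2]
    have := P1_le_Lam B s
    have := Lam_le hB h2
    omega
  rw [if_neg h2]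
  by_cases h1 : s.card = 1
  · rw [if_pos h1]
    obtain ⟨u, rfl⟩ := card_eq_one.1 h1
    rw [sum_singleton]
    have hu := mem_R11.1 (singleton_subset_iff.1 hs)
    have n12 : (12 : Fin 13) ≠ u := by
      rintro rfl
      exact absurd hu (by decide)
    have n11 : (11 : Fin 13) ≠ u := by
      rintro rfl
      exact absurd hu (by decide)
    have e1 := Lam_pair hB n12
    have e2 := Lam_pair hB n11
    have e3 := Lam_le hB (card_pair n12)
    have e4 := Lam_le hB (card_pair n11)
    have e5 := hf {u}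
    omega
  · rw [if_neg h1]
    omega

/-- transport of the pair word, one permutation -/
theorem pw_map' {σ : Equiv.Perm (Fin 13)} (h12 : σ 12 = 12) (h11 : σ 11 = 11)
    {B : Finset (Finset (Fin 13))} (hB : OddCover B) {Q Q' : ℕ} (h : PW B Q)
    (hQ : ∀ g : Finset (Fin 13) → ℕ, (∀ s ⊆ R11, g s < 256) → Q = bw g →
      Q' = bw fun s => g (mapS σ.symm s)) : PW (mapF σ B) Q' :=
  pw_map h12 h11 hB h hQ fun _ hf _ hs => qf_lt hB hf hs

end Pool.Agent.Helper54.TY
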