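import Pool.Agent.Helper79.CV.Linkage

/-!
MP_8ee768_co, project TH-Y', stage S, Z level: membership in the glued table.

Pair frame after the relabelling word: the pair is `12, 11`, the third point is `10`, the other
points are `0, .., 9`. The glued table lives in the frame with apex `12` and known links at `11`
and `10`. `glue_mem` and `glue_mem'` are the two ways of placing the pair.
-/

set_option autoImplicit false

namespace Pool.Agent.Helper54.TY

open Finset
open Pool.Agent.Helper89.CV (OddCover ofMask)
open Pool.Agent.Helper97.CV Pool.Agent.Helper79.CV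
open Pool.Agent.Helper82.TY (below)

/-- completeness of the row of one glued type: `S` contains the codes of the quads inside
`{0, .., 9}` of all odd covers with `n` blocks on `{0, .., 11}` whose other blocks have code
`G` -/
def GlueN (n G : ℕ) (S : Set ℕ) : Prop :=
  ∀ D : Finset (Finset (Fin 13)), OddFam 3 (below 12) D → D.card = n →
    enc 12 4 D >>> 210 = G → enc 12 4 D % 2 ^ 210 ∈ S

/-- codes of families on points fixed by `κ` -/
theorem enc_mapF_fix {n k : ℕ} (hn : n ≤ 13) {κ : Equiv.Perm (Fin 13)}
    (h : ∀ a : Fin 13, a.val < n → κ a = a) (D : Finset (Finset (Fin 13))) :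
    enc n k (mapF κ D) = enc n k D := by
  refine Nat.eq_of_testBit_eq fun i => ?_
  by_cases hi : i < (L n k).length
  · rw [testBit_enc _ hi, testBit_enc _ hi, decide_eq_decide, mem_mapF']
    have h1 : mapS κ.symm (ofMask ((L n k)[i])) = ofMask ((L n k)[i]) := by
      refine mapS_eq_self fun a ha => ?_
      have h2 := (ofMask_getElem_sub hn hi).1
      rw [mk_lt_iff] at h2
      rw [Equiv.symm_apply_eq]
      exact (h a (h2 a ha)).symm
    rw [h1]
  · rw [testBit_enc_ge _ (by omega), testBit_enc_ge _ (by omega)]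

/-- the code of a family on `{0, .., 11}` in four parts -/
theorem enc_parts (D : Finset (Finset (Fin 13))) :
    enc 12 4 D = enc 10 4 D + 2 ^ 210 * (enc 10 3 (link D 10) + 2 ^ 120 *
      (enc 10 3 (link D 11) + 2 ^ 120 * enc 10 2 (link (link D 11) 10))) := by
  have h1 : enc 12 4 D = enc 11 4 D + 2 ^ 330 * enc 11 3 (link D 11) := enc_split 11 3 D
  have h2 : enc 11 4 D = enc 10 4 D + 2 ^ 210 * enc 10 3 (link D 10) := enc_split 10 3 D
  have h3 : enc 11 3 (link D 11) = enc 10 3 (link D 11) +
      2 ^ 120 * enc 10 2 (link (link D 11) 10) := enc_split 10 2 (link D 11)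
  have e : (2 : ℕ) ^ 330 = 2 ^ 210 * 2 ^ 120 := by rw [← pow_add]
  rw [h1, h2, h3, e]
  generalize (2 : ℕ) ^ 210 = a
  generalize (2 : ℕ) ^ 120 = b
  ring

theorem enc_lt210 (D : Finset (Finset (Fin 13))) : enc 10 4 D < 2 ^ 210 := enc_lt 10 4 D

theorem enc_shift210 (D : Finset (Finset (Fin 13))) :
    enc 12 4 D >>> 210 = enc 10 3 (link D 10) + 2 ^ 120 *
      (enc 10 3 (link D 11) + 2 ^ 120 * enc 10 2 (link (link D 11) 10)) := by
  rw [enc_parts D, Nat.shiftRight_eq_div_pow, Nat.add_mul_div_left _ _ (Nat.two_pow_pos 210),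
    Nat.div_eq_of_lt (enc_lt210 D), Nat.zero_add]

theorem enc_mod210 (D : Finset (Finset (Fin 13))) : enc 12 4 D % 2 ^ 210 = enc 10 4 D := by
  rw [enc_parts D, Nat.add_mul_mod_self_left, Nat.mod_eq_of_lt (enc_lt210 D)]

/-- the code of the known part of the link of the point `10`: `p` is the point which becomes
`11`, `q` the point which becomes `10` -/
def gcode (B : Finset (Finset (Fin 13))) (p q : Fin 13) : ℕ :=
  enc 10 3 (link (link B 10) q) + 2 ^ 120 *
    (enc 10 3 (link (link B 10) p) + 2 ^ 120 * enc 10 2 (link (link (link B 10) p) q))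

theorem glue_core {B : Finset (Finset (Fin 13))} (hB : OddCover B) {n : ℕ}
    (h6 : 2 * n = 114 + MM B 10) {p q : Fin 13} (κ : Equiv.Perm (Fin 13)) (hp : κ p = 11) (hq : κ q = 10) (h10 : κ 10 = 12)
    (hfix : ∀ a : Fin 13, a.val < 10 → κ a = a) {G : ℕ} {S : Set ℕ} (hG : GlueN n G S)
    (hcode : gcode B p q = G) : enc 10 4 (link B 10) ∈ S := by
  have hodd : OddFam 3 (below 12) (mapF κ (link B 10)) := by
    have h1 := (oddFam_link hB 10).map κ
    have h2 : mapS κ (univ.erase 10) = below 12 := by
      ext a
      rw [mem_mapS', mem_erase, mem_below]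
      constructor
      · rintro ⟨h3, -⟩
        have h4 : a ≠ 12 := by
          rintro rfl
          exact h3 (by rw [Equiv.symm_apply_eq]; exact h10.symm)
        have h5 : a.val ≠ 12 := fun h => h4 (Fin.ext h)
        omega
      · intro h3
        refine ⟨?_, mem_univ _⟩
        intro h4
        rw [Equiv.symm_apply_eq, h10] at h4
        rw [h4] at h3
        exact absurd h3 (by decide)
    rwa [h2] at h1
  have hcard : (mapF κ (link B 10)).card = n := by
    rw [card_mapF]
    have h1 := two_mul_card_link hB 10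
    omega
  have l10 : link (mapF κ (link B 10)) 10 = mapF κ (link (link B 10) q) := by
    rw [← hq]
    exact link_mapF κ _ _
  have l11 : link (mapF κ (link B 10)) 11 = mapF κ (link (link B 10) p) := by
    rw [← hp]
    exact link_mapF κ _ _
  have l1110 : link (link (mapF κ (link B 10)) 11) 10 =
      mapF κ (link (link (link B 10) p) q) := by
    rw [l11, ← hq]
    exact link_mapF κ _ _
  have h1 := hG _ hodd hcard (by
    rw [enc_shift210, l1110, l10, l11, enc_mapF_fix (by norm_num) hfix,
      enc_mapF_fix (by norm_num) hfix, enc_mapF_fix (by norm_num) hfix]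
    exact hcode)
  rw [enc_mod210, enc_mapF_fix (by norm_num) hfix] at h1
  exact h1

/-- the permutation `12 -> 11 -> 10 -> 12` -/
def kap : Equiv.Perm (Fin 13) := Equiv.swap 12 11 * Equiv.swap 11 10

/-- the permutation `12 -> 10 -> 12` -/
def kap' : Equiv.Perm (Fin 13) := Equiv.swap 12 10

/-- the pair `12, 11` is placed at `11, 10` -/
theorem glue_mem {B : Finset (Finset (Fin 13))} (hB : OddCover B) {n : ℕ}
    (h6 : 2 * n = 114 + MM B 10) {G : ℕ} {S : Set ℕ} (hG : GlueN n G S) (hcode : gcode B 12 11 = G) : enc 10 4 (link B 10) ∈ S :=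
  glue_core hB h6 kap (by decide) (by decide) (by decide) (by decide) hG hcode

/-- the pair `12, 11` is placed at `10, 11` -/
theorem glue_mem' {B : Finset (Finset (Fin 13))} (hB : OddCover B) {n : ℕ}
    (h6 : 2 * n = 114 + MM B 10) {G : ℕ} {S : Set ℕ} (hG : GlueN n G S) (hcode : gcode B 11 12 = G) : enc 10 4 (link B 10) ∈ S :=
  glue_core hB h6 kap' (by decide) (by decide) (by decide) (by decide) hG hcode

end Pool.Agent.Helper54.TY
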