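import Pool.Agent.Helper54.TY.SInst
import Pool.Agent.Helper33.TY.PFlag
import Pool.Agent.Helper33.TY.PFin
import Pool.Agent.Helper59.TY.QSwap
import Pool.Agent.Helper59.TY.G8

/-!
MP_8ee768_co, project TH-Y', stage S: the context of all five stages, `TwoS` together with a third
point of `MM = 6`, and the correctness structure of the engine in this context.
-/

set_option autoImplicit false

namespace Pool.Agent.Helper54.TY

open Finset
open Pool.Agent.Helper89.CV (OddCover ofMask)
open Pool.Agent.Helper97.CV Pool.Agent.Helper79.CV Pool.Agent.Helper33.CV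
open Pool.Agent.Helper4.CV Pool.Agent.Helper33.TY Pool.Agent.Helper25.TY
open Pool.Agent.Helper67.TY (GluedOK)
open Pool.Agent.Helper59.TY

/-- two small points with `MM = a, b` and a third point of `MM = 6` -/
def QS (a b : ℕ) (B : Finset (Finset (Fin 13))) (x y : Fin 13) : Prop :=
  TwoS B x y a b ∧ ∃ z, z ≠ x ∧ z ≠ y ∧ MM B z = 6

theorem QS.two {a b : ℕ} {B : Finset (Finset (Fin 13))} {x y : Fin 13} (h : QS a b B x y) :
    TwoS B x y a b := h.1

theorem QS.map {a b : ℕ} {B : Finset (Finset (Fin 13))} {x y : Fin 13} (h : QS a b B x y)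
    (σ : Equiv.Perm (Fin 13)) : QS a b (mapF σ B) (σ x) (σ y) := by
  obtain ⟨h1, z, hx, hy, hz⟩ := h
  refine ⟨twoS_map h1 σ, σ z, ?_, ?_, ?_⟩
  · exact σ.injective.ne hx
  · exact σ.injective.ne hy
  · rw [MM_mapF h1.best.odd, hz]

theorem inv_QS (a b : ℕ) : Inv₂ (QS a b) := fun σ _ _ _ h => h.map σ

/-- from `a, b ≤ 4` and any point of `MM = 6` -/
theorem QS.of {a b : ℕ} (ha : a ≤ 4) (hb : b ≤ 4) {B : Finset (Finset (Fin 13))}
    {x y : Fin 13} (h : TwoS B x y a b) {z : Fin 13} (hz : MM B z = 6) : QS a b B x y := by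
  refine ⟨h, z, ?_, ?_, hz⟩
  · rintro rfl
    have := h.hx
    omega
  · rintro rfl
    have := h.hy
    omega

theorem pdead_QS {a b r : ℕ} {u : Finset (Finset (Fin 13))}
    (h : PDead (fun B x y => TwoS B x y a b) r u) : PDead (QS a b) r u :=
  fun B hQ hl hu => h B hQ.1 hl hu

/-! ## the final check -/

/-- all points are flagged, or the kill test -/
def pfin6 (T Q : ℕ) : Bool :=
  @Bool.rec (fun _ => Bool) (pfin T Q) true (Nat.beq (Nat.land Q m64_1) m64_1)

theorem pfin6_iff (T Q : ℕ) : pfin6 T Q = true ↔ Nat.beq (Nat.land Q m64_1) m64_1 = true ∨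
    pkill T Q = true := by
  rw [← pfin_eq]
  unfold pfin6
  cases Nat.beq (Nat.land Q m64_1) m64_1
  · simp
  · simp

theorem bw_inj {g h : Finset (Fin 13) → ℕ} (hg : ∀ s ⊆ R11, g s < 256)
    (hh : ∀ s ⊆ R11, h s < 256) (e : bw g = bw h) {s : Finset (Fin 13)} (hs : s ⊆ R11) :
    g s = h s := by
  obtain ⟨m, hm, rfl⟩ : ∃ m < 2048, ofMask m = s := ⟨mk s, mk_lt_R11.2 hs, ofMask_mk s⟩
  rw [← fld_bw hg hm, ← fld_bw hh hm, e]

/-- all flags are set -/
theorem flags_all {B : Finset (Finset (Fin 13))} (hB : OddCover B) (h157 : B.card ≤ 157) {Q : ℕ}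
    (hQ : PW B Q) (h : Nat.beq (Nat.land Q m64_1) m64_1 = true) (z : Fin 13) (hz : z.val < 11) :
    8 ≤ MM B z := by
  have h1 : Q &&& m64_1 = m64_1 := Nat.eq_of_beq_eq_true h
  unfold PW at hQ
  obtain ⟨f, hQf, hf, hf8⟩ := hQ
  refine hf8 z hz ?_
  rw [hQf, m64_1_eq, bw_land_lay' (fun s hs => qf_lt256 hB h157 hf hs) (by norm_num)] at h1
  have hs : ({z} : Finset (Fin 13)) ⊆ R11 := singleton_subset_iff.2 (mem_R11.2 hz)
  unfold lay at h1
  have h2 := bw_inj (fun s hs => ?_) (fun s hs => ?_) h1 hs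
  · simp only [card_singleton, if_true] at h2
    have h3 := (land_63 (x := ∑ u ∈ ({z} : Finset (Fin 13)), (mm B 12 u + mm B 11 u))
      (y := f {z}) ?_ (hf _)).2
    · have e : qf B f {z} = ∑ u ∈ ({z} : Finset (Fin 13)), (mm B 12 u + mm B 11 u) +
          64 * f {z} := by
        unfold qf
        rw [if_neg (by rw [card_singleton]; omega), if_neg (by rw [card_singleton]; omega),
          if_neg (by rw [card_singleton]; omega), if_pos (card_singleton z)]
      rw [e, h3] at h2
      omega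
    · rw [sum_singleton]
      have := hrow_le hB h157 hz
      omega
  · split_ifs
    · exact lt_of_le_of_lt Nat.and_le_left (qf_lt256 hB h157 hf hs)
    · norm_num
  · split_ifs <;> norm_num

theorem twoS_card {a b : ℕ} {B : Finset (Finset (Fin 13))} {x y : Fin 13}
    (h : TwoS B x y a b) : B.card ≤ 157 := by
  have h2 := ten_card h.best.odd
  have h3 := h.sum
  omega

theorem pfin6_sound {a b : ℕ} {B : Finset (Finset (Fin 13))} (h : QS a b B 12 11)
    {Q : ℕ} (hQ : PW B Q) : pfin6 (89 - a - b) Q = false := by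
  rw [← Bool.not_eq_true, pfin6_iff, not_or]
  have hB := h.1.best.odd
  have h157 := twoS_card h.1
  constructor
  · intro h1
    obtain ⟨z, hx, hy, hz⟩ := h.2
    have h2 := flags_all hB h157 hQ h1 z (mem_R11.1 (Spec.mem (Or.inl ⟨rfl, rfl⟩) hx hy))
    omega
  · rw [Bool.not_eq_true]
    refine pkill_sound hB h157 ?_ hQ ?_
    · intro z hz
      refine h.1.other z ?_ ?_
      · rintro rfl
        exact absurd hz (by decide)
      · rintro rfl
        exact absurd hz (by decide)
    · rw [h.1.hx, h.1.hy]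
      omega

/-! ## the correctness structure -/

theorem sok_QS {a b : ℕ} {NT : ℕ} {G : ℕ → ℕ} {lanes : ℕ → Set ℕ} {T : ℕ → ℕ}
    (hglue : GluedOK NT G lanes) (hT : ∀ t < NT, gath (tA (T t)) (tB (T t)) = G t)
    {run : ℕ → ℕ → ℕ → ℕ}
    (hrun : ∀ (B : Finset (Finset (Fin 13))) (t Q c : ℕ), QS a b B 12 11 → PW B Q →
      MM B 10 = 6 → t < NT → enc 10 4 (link B 10) ∈ lanes t → run t Q c ≠ 0 → False) :
    SOK ⟨exw, zstep ⟨tyC T NT, run⟩, setZ, pfin6 (89 - a - b)⟩ (fun B => QS a b B 12 11) PW where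
  even := fun B h => h.1.best.odd
  six := by
    intro B h z hz
    refine h.1.other z ?_ ?_
    · rintro rfl
      exact absurd hz (by decide)
    · rintro rfl
      exact absurd hz (by decide)
  ex_ok := by
    intro B w Q h hW z hz hzw
    obtain ⟨σ, h12, h11, h10, hW'⟩ := pw_exw h.1.best.odd hW w hz hzw
    refine ⟨σ, h10, ?_, hW'⟩
    have h1 := h.map σ
    rwa [h12, h11] at h1
  zt_ok := by
    intro B h Q c hC hW hzs
    refine zstep_sound (C := fun B => QS a b B 12 11) (W := PW) (NT := NT) (G := G)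
      (lanes := lanes) (m := 6) ⟨fun B h => h.1.best.odd, glueN_of_gluedOK hglue, ?_, hrun⟩
      B h Q c hC hW hzs
    intro B t sw Q h hQ hty
    exact tyC_sound h.1.best.odd hQ hT hty
  fl_ok := fun B Q h hW z hz h8 => setZ_pw h.1.best.odd (twoS_card h.1) hW hz h8
  fin_ok := fun B Q h hW => pfin6_sound h hW

end Pool.Agent.Helper54.TY
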