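import Pool.Agent.Helper54.TY.SEng
import Pool.Agent.Helper33.TY.PWord
import Pool.Agent.Helper67.TY.Glued

/-!
MP_8ee768_co, project TH-Y', stage S: the step of one third point (the point 10 of the relabelled
pair word).

Operations: `ty t sw Q` compares the known part of the link of `10` with the glued type `t`
(`sw = 1`: the pair is placed in the other order); `run t Q c` runs through the lanes of the row
`t` with the stream `c` and returns the rest of the stream, or 0 if the check fails.
-/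

set_option autoImplicit false

namespace Pool.Agent.Helper54.TY

open Finset
open Pool.Agent.Helper89.CV (OddCover ofMask)
open Pool.Agent.Helper97.CV Pool.Agent.Helper79.CV
open Pool.Agent.Helper4.CV Pool.Agent.Helper33.TY Pool.Agent.Helper25.TY
open Pool.Agent.Helper67.TY (GluedOK)

/-- the operations of the step -/
structure ZOps where
  ty : ℕ → ℕ → ℕ → Bool
  run : ℕ → ℕ → ℕ → ℕ

/-- the step -/
def zstep (o : ZOps) (h Q c : ℕ) : ℕ :=
  @Bool.rec (fun _ => ℕ) 0 (o.run (Nat.land h 16383) Q c)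
    (o.ty (Nat.land h 16383) (Nat.shiftRight h 14) Q)

theorem rec_ite (b : Bool) (x y : ℕ) :
    @Bool.rec (fun _ => ℕ) x y b = if b = true then y else x := by
  cases b <;> rfl

/-- correctness of the operations for the value `m` of `MM B 10`; `C` context, `W` meaning of
the word -/
structure ZOK (o : ZOps) (C : Finset (Finset (Fin 13)) → Prop)
    (W : Finset (Finset (Fin 13)) → ℕ → Prop) (NT : ℕ) (G : ℕ → ℕ) (lanes : ℕ → Set ℕ)
    (m : ℕ) : Prop where
  odd : ∀ B, C B → OddCover B
  table : ∃ n, 2 * n = 114 + m ∧ ∀ t < NT, GlueN n (G t) (lanes t)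
  ty_ok : ∀ B t sw Q, C B → W B Q → o.ty t sw Q = true →
    t < NT ∧ (gcode B 12 11 = G t ∨ gcode B 11 12 = G t)
  run_ok : ∀ B t Q c, C B → W B Q → MM B 10 = m → t < NT →
    enc 10 4 (link B 10) ∈ lanes t → o.run t Q c ≠ 0 → False

theorem zstep_sound {o : ZOps} {C : Finset (Finset (Fin 13)) → Prop}
    {W : Finset (Finset (Fin 13)) → ℕ → Prop} {NT : ℕ} {G : ℕ → ℕ} {lanes : ℕ → Set ℕ} {m : ℕ}
    (ho : ZOK o C W NT G lanes m) (B : Finset (Finset (Fin 13))) (h Q c : ℕ) (hC : C B)
    (hW : W B Q) (hz : zstep o h Q c ≠ 0) : MM B 10 ≠ m := by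
  intro h6
  unfold zstep at hz
  rw [rec_ite] at hz
  by_cases h1 : o.ty (Nat.land h 16383) (Nat.shiftRight h 14) Q = true
  swap
  · rw [if_neg h1] at hz
    exact hz rfl
  rw [if_pos h1] at hz
  obtain ⟨ht, hg⟩ := ho.ty_ok B _ _ Q hC hW h1
  have hB := ho.odd B hC
  obtain ⟨n, hn, htab⟩ := ho.table
  have hm : enc 10 4 (link B 10) ∈ lanes (Nat.land h 16383) := by
    rcases hg with hg | hg
    · exact glue_mem hB (by omega) (htab _ ht) hg
    · exact glue_mem' hB (by omega) (htab _ ht) hg
  exact ho.run_ok B _ Q _ hC hW h6 ht hm hz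

/-- helper67's table theorem in this form -/
theorem glueN_of_gluedOK {NT : ℕ} {G : ℕ → ℕ} {lanes : ℕ → Set ℕ} (h : GluedOK NT G lanes) :
    ∃ n, 2 * n = 114 + 6 ∧ ∀ t < NT, GlueN n (G t) (lanes t) :=
  ⟨60, by norm_num, fun t ht D hD hcard hcode => h t ht D hD hcard hcode⟩

end Pool.Agent.Helper54.TY
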