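import Pool.Agent.Helper54.TY.Glue
import Pool.Agent.Helper25.TY.SCtx

/-!
MP_8ee768_co, project TH-Y', stage S: the loops of the engine, generic in the operations on the
pair word.

`W B Q` is the meaning of the word `Q` of a cover `B` in the pair frame (12, 11), `C B` the
context (`TwoS B 12 11 a b`), `E B e` says that `B` belongs to the entry `e` of the root. The
operations: `ex w Q` relabels the points `< 11` by a word of exchanges which moves the point
`w % 16` to `10`; `zt h Q c` checks that the point `10` cannot have `MM = 6` (header `h`, stream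
`c`, it returns the rest of the stream, or 0 if the check fails); `fl z Q` sets the flag
`8 <= MM z`; `fin Q` is the final check of the pair. `q e` is the word of the entry `e`,
`rx k m e` the check of the relative form. A certificate never becomes 0 on the way, because it
ends with the header 16383.
-/

set_option autoImplicit false

namespace Pool.Agent.Helper54.TY

open Finset
open Pool.Agent.Helper89.CV (OddCover ofMask)
open Pool.Agent.Helper97.CV Pool.Agent.Helper79.CV
open Pool.Agent.Helper4.CV Pool.Agent.Helper33.TY Pool.Agent.Helper25.TY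

/-- the operations -/
structure SOps where
  ex : ℕ → ℕ → ℕ
  zt : ℕ → ℕ → ℕ → ℕ
  fl : ℕ → ℕ → ℕ
  fin : ℕ → Bool

/-- correctness of the operations -/
structure SOK (o : SOps) (C : Finset (Finset (Fin 13)) → Prop)
    (W : Finset (Finset (Fin 13)) → ℕ → Prop) : Prop where
  even : ∀ B, C B → OddCover B
  six : ∀ B, C B → ∀ z : Fin 13, z.val < 11 → 6 ≤ MM B z
  ex_ok : ∀ B w Q, C B → W B Q → ∀ z : Fin 13, z.val < 11 → z.val = w % 16 →
    ∃ ρ : Equiv.Perm (Fin 13), ρ z = 10 ∧ C (mapF ρ B) ∧ W (mapF ρ B) (o.ex w Q)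
  zt_ok : ∀ B h Q c, C B → W B Q → o.zt h Q c ≠ 0 → MM B 10 ≠ 6
  fl_ok : ∀ B Q, C B → W B Q → ∀ z : Fin 13, z.val < 11 → 8 ≤ MM B z → W B (o.fl z.val Q)
  fin_ok : ∀ B Q, C B → W B Q → o.fin Q = false

/-- salted successor (helper55): `k` only serves the hash of the term -/
def scc (_k a : ℕ) : ℕ := Nat.succ a

/-- go on with a stream which is not 0 -/
def nz (k E : ℕ) (f : ℕ → Bool) : Bool :=
  @Nat.rec (fun _ => Bool) false (fun m _ => f (scc k m)) E

theorem nz_true {k E : ℕ} {f : ℕ → Bool} (h : nz k E f = true) : E ≠ 0 ∧ f E = true := by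
  cases E with
  | zero => exact absurd h Bool.false_ne_true
  | succ m => exact ⟨Nat.succ_ne_zero m, h⟩

theorem rec_cond (b x y : Bool) : @Bool.rec (fun _ => Bool) x y b = (bif b then y else x) := by
  cases b <;> rfl

/-- the loop over the points of a pair -/
def zloop (o : SOps) (n : ℕ) : ℕ → ℕ → Bool :=
  @Nat.rec (fun _ => ℕ → ℕ → Bool) (fun _ _ => false) (fun n ih Q c =>
    @Bool.rec (fun _ => Bool)
      (@Bool.rec (fun _ => Bool) false
        (nz (Nat.add n c)
          (o.zt (Nat.land c 65535) (o.ex (Nat.land (Nat.shiftRight c 16) 1099511627775) Q)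
            (Nat.shiftRight c 56))
          (fun c' => ih (o.fl (Nat.land (Nat.shiftRight c 16) 15) Q) c'))
        (Nat.blt (Nat.land (Nat.shiftRight c 16) 15) 11))
      (o.fin Q)
      (Nat.beq (Nat.land c 65535) 16383)) n

theorem zloop_succ (o : SOps) (n Q c : ℕ) : zloop o (n + 1) Q c =
    (bif Nat.beq (Nat.land c 65535) 16383 then o.fin Q
    else bif Nat.blt (Nat.land (Nat.shiftRight c 16) 15) 11 then
      nz (Nat.add n c)
        (o.zt (Nat.land c 65535) (o.ex (Nat.land (Nat.shiftRight c 16) 1099511627775) Q)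
          (Nat.shiftRight c 56))
        (fun c' => zloop o n (o.fl (Nat.land (Nat.shiftRight c 16) 15) Q) c')
    else false) := by
  rw [← rec_cond, ← rec_cond]
  rfl

theorem zloop_sound {o : SOps} {C : Finset (Finset (Fin 13)) → Prop}
    {W : Finset (Finset (Fin 13)) → ℕ → Prop} (ho : SOK o C W) :
    ∀ (n Q c : ℕ) (B : Finset (Finset (Fin 13))), C B → W B Q → zloop o n Q c = false := by
  intro n
  induction n with
  | zero => exact fun _ _ _ _ _ => rfl
  | succ n ih =>
    intro Q c B hC hW
    rw [← Bool.not_eq_true]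
    intro h
    rw [zloop_succ, cond_eq_ite] at h
    split_ifs at h with h1
    · rw [ho.fin_ok B Q hC hW] at h
      exact Bool.false_ne_true h
    · rw [cond_eq_ite] at h
      split_ifs at h with h2
      obtain ⟨h5, h3⟩ := nz_true h
      have h2' : Nat.land (Nat.shiftRight c 16) 15 < 11 := by
        have h4 : (Nat.land (Nat.shiftRight c 16) 15).blt 11 = true := h2
        rw [Nat.blt_eq] at h4
        exact h4
      generalize hz : Nat.land (Nat.shiftRight c 16) 15 = z at h2' h3
      have hw : (Nat.land (Nat.shiftRight c 16) 1099511627775) % 16 = z := by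
        rw [← hz]
        have e1 : (1099511627775 : ℕ) = 2 ^ 40 - 1 := by norm_num
        have e2 : (15 : ℕ) = 2 ^ 4 - 1 := by norm_num
        have e3 : Nat.land (Nat.shiftRight c 16) 1099511627775 =
          (Nat.shiftRight c 16) &&& 1099511627775 := rfl
        have e4 : Nat.land (Nat.shiftRight c 16) 15 = (Nat.shiftRight c 16) &&& 15 := rfl
        rw [e3, e4, e1, e2, Nat.and_two_pow_sub_one_eq_mod, Nat.and_two_pow_sub_one_eq_mod,
          show (16 : ℕ) = 2 ^ 4 by norm_num, Nat.mod_mod_of_dvd]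
        exact pow_dvd_pow 2 (by norm_num)
      have hz13 : z < 13 := by omega
      obtain ⟨ρ, hρ, hC', hW'⟩ := ho.ex_ok B _ Q hC hW ⟨z, hz13⟩ h2' hw.symm
      have h6 := ho.zt_ok _ _ _ _ hC' hW' h5
      have hB := ho.even B hC
      rw [← hρ, MM_mapF hB] at h6
      have h7 := ho.six B hC ⟨z, hz13⟩ h2'
      obtain ⟨k, hk⟩ := MM_even hB ⟨z, hz13⟩
      have h8 : 8 ≤ MM B ⟨z, hz13⟩ := by omega
      have h9 := ih _ (o.zt (Nat.land c 65535)
        (o.ex (Nat.land (Nat.shiftRight c 16) 1099511627775) Q) (Nat.shiftRight c 56)) B hC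
        (ho.fl_ok B Q hC hW ⟨z, hz13⟩ h2' h8)
      have h3' : zloop o n (o.fl z Q) (o.zt (Nat.land c 65535)
        (o.ex (Nat.land (Nat.shiftRight c 16) 1099511627775) Q) (Nat.shiftRight c 56)) = true := h3
      have h9' : zloop o n (o.fl z Q) (o.zt (Nat.land c 65535)
        (o.ex (Nat.land (Nat.shiftRight c 16) 1099511627775) Q) (Nat.shiftRight c 56)) = false :=
        h9
      rw [h9'] at h3'
      exact Bool.false_ne_true h3'

/-- the check of one pair -/
def pairOk (o : SOps) (q : ℕ → ℕ) (rx : ℕ → ℕ → ℕ → Bool) (e c : ℕ) : Bool :=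
  @Nat.rec (fun _ => Bool) (rx 0 (Nat.land (Nat.shiftRight c 4) 2047) e)
    (fun k _ => @Nat.rec (fun _ => Bool) (o.fin (q e))
      (fun k _ => @Nat.rec (fun _ => Bool) (zloop o 12 (q e) (Nat.shiftRight c 4))
        (fun _ _ => rx 1 (Nat.land (Nat.shiftRight c 4) 2047) e) k) k) (Nat.land c 15)

theorem pairOk_sound {o : SOps} {C : Finset (Finset (Fin 13)) → Prop}
    {W E : Finset (Finset (Fin 13)) → ℕ → Prop} (ho : SOK o C W) {q : ℕ → ℕ}
    {rx : ℕ → ℕ → ℕ → Bool} (hq : ∀ B e, C B → E B e → W B (q e))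
    (hrx : ∀ B k m e, C B → E B e → rx k m e = false) (e c : ℕ)
    (B : Finset (Finset (Fin 13))) (hC : C B) (hE : E B e) : pairOk o q rx e c = false := by
  unfold pairOk
  rcases Nat.land c 15 with _ | _ | _ | k
  · exact hrx B _ _ e hC hE
  · exact ho.fin_ok B _ hC (hq B e hC hE)
  · exact zloop_sound ho _ _ _ B hC (hq B e hC hE)
  · exact hrx B _ _ e hC hE

/-- the check of a list of entries with certificates -/
def sOk (o : SOps) (q : ℕ → ℕ) (rx : ℕ → ℕ → ℕ → Bool) (es : List ℕ) : List ℕ → Bool :=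
  @List.rec ℕ (fun _ => List ℕ → Bool) (fun _ => true)
    (fun e _ ih cs => @List.rec ℕ (fun _ => Bool) false
      (fun c cs' _ => @Bool.rec (fun _ => Bool) false (ih cs') (pairOk o q rx e c)) cs) es

theorem sOk_cons (o : SOps) (q : ℕ → ℕ) (rx : ℕ → ℕ → ℕ → Bool) (e : ℕ) (es : List ℕ) (c : ℕ)
    (cs : List ℕ) : sOk o q rx (e :: es) (c :: cs) =
      (bif pairOk o q rx e c then sOk o q rx es cs else false) := by
  rw [← rec_cond]
  rfl

theorem sOk_sound {o : SOps} {C : Finset (Finset (Fin 13)) → Prop}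
    {W E : Finset (Finset (Fin 13)) → ℕ → Prop} (ho : SOK o C W) {q : ℕ → ℕ}
    {rx : ℕ → ℕ → ℕ → Bool} (hq : ∀ B e, C B → E B e → W B (q e))
    (hrx : ∀ B k m e, C B → E B e → rx k m e = false) :
    ∀ (es cs : List ℕ), sOk o q rx es cs = true → ∀ e ∈ es, ∀ B, C B → ¬ E B e := by
  intro es
  induction es with
  | nil => exact fun _ _ e he => absurd he List.not_mem_nil
  | cons e es ih =>
    intro cs h
    cases cs with
    | nil => exact absurd h Bool.false_ne_true
    | cons c cs =>
      have h1 : pairOk o q rx e c = true ∧ sOk o q rx es cs = true := by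
        have h0 := h
        rw [sOk_cons, cond_eq_ite] at h0
        split_ifs at h0 with h2
        exact ⟨h2, h0⟩
      intro e' he' B hC hE
      rcases List.mem_cons.1 he' with rfl | he'
      · rw [pairOk_sound ho hq hrx _ _ B hC hE] at h1
        exact Bool.false_ne_true h1.1
      · exact ih cs h1.2 e' he' B hC hE

/-- **a list of entries of a root is dead** -/
theorem pdead_of_sOk {a b : ℕ} {o : SOps} {W : Finset (Finset (Fin 13)) → ℕ → Prop}
    (ho : SOK o (fun B => TwoS B 12 11 a b) W) {r : ℕ} {q : ℕ → ℕ} {rx : ℕ → ℕ → ℕ → Bool}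
    (hq : ∀ (B : Finset (Finset (Fin 13))) (e : ℕ), OddCover B → link B 12 = fam 12 4 r →
      lane B 11 = cone 11 (fam 11 4 e) → W B (q e))
    (hrx : ∀ k m e, rx k m e = true →
      PDead (fun B x y => TwoS B x y a b) r (cone 11 (fam 11 4 e)))
    {es cs : List ℕ} (h : sOk o q rx es cs = true) :
    ∀ e ∈ es, PDead (fun B x y => TwoS B x y a b) r (cone 11 (fam 11 4 e)) := by
  intro e he B hQ hl hu
  have hQ' : TwoS B 12 11 a b := hQ
  refine sOk_sound (E := fun B e => link B 12 = fam 12 4 r ∧
    lane B 11 = cone 11 (fam 11 4 e)) ho ?_ ?_ es cs h e he B hQ' ⟨hl, hu⟩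
  · intro B e hC hE
    have hC' : TwoS B 12 11 a b := hC
    exact hq B e hC'.best.odd hE.1 hE.2
  · intro B k m e hC hE
    rw [← Bool.not_eq_true]
    exact fun h1 => hrx k m e h1 B hC hE.1 hE.2

end Pool.Agent.Helper54.TY
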