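import Pool.Agent.Helper54.TY.ZStep
import Pool.Agent.Helper54.TY.QBound

/-!
MP_8ee768_co, project TH-Y', stage S: the correctness structure of the engine from the statements
of the single operations, context `TwoS B 12 11 a b`, word `PW`.
-/

set_option autoImplicit false

namespace Pool.Agent.Helper54.TY

open Finset
open Pool.Agent.Helper89.CV (OddCover ofMask)
open Pool.Agent.Helper97.CV Pool.Agent.Helper79.CV
open Pool.Agent.Helper4.CV Pool.Agent.Helper33.TY Pool.Agent.Helper25.TY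

theorem sok_inst {a b : ℕ} {NT : ℕ} {G : ℕ → ℕ} {lanes : ℕ → Set ℕ} {zo : ZOps}
    {ex fl : ℕ → ℕ → ℕ} {fin : ℕ → Bool}
    (hex : ∀ (B : Finset (Finset (Fin 13))) (w Q : ℕ) (z : Fin 13), OddCover B → PW B Q →
      z.val < 11 → z.val = w % 16 → ∃ σ : Equiv.Perm (Fin 13), σ 12 = 12 ∧ σ 11 = 11 ∧
        σ z = 10 ∧ PW (mapF σ B) (ex w Q))
    (hz : ZOK zo (fun B => TwoS B 12 11 a b) PW NT G lanes 6)
    (hfl : ∀ (B : Finset (Finset (Fin 13))) (Q : ℕ) (z : Fin 13), OddCover B → PW B Q →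
      z.val < 11 → 8 ≤ MM B z → PW B (fl z.val Q))
    (hfin : ∀ (B : Finset (Finset (Fin 13))) (Q : ℕ), TwoS B 12 11 a b → PW B Q →
      fin Q = true → False) :
    SOK ⟨ex, zstep zo, fl, fin⟩ (fun B => TwoS B 12 11 a b) PW where
  even := fun B h => h.best.odd
  six := by
    intro B h z hz
    refine h.other z ?_ ?_
    · rintro rfl
      exact absurd hz (by decide)
    · rintro rfl
      exact absurd hz (by decide)
  ex_ok := by
    intro B w Q h hW z hz hzw
    obtain ⟨σ, h12, h11, h10, hW'⟩ := hex B w Q z h.best.odd hW hz hzw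
    refine ⟨σ, h10, ?_, hW'⟩
    have h1 := twoS_map h σ
    rwa [h12, h11] at h1
  zt_ok := fun B h Q c hC hW hzs => zstep_sound hz B h Q c hC hW hzs
  fl_ok := fun B Q h hW z hz h8 => hfl B Q z h.best.odd hW hz h8
  fin_ok := by
    intro B Q h hW
    rw [← Bool.not_eq_true]
    exact fun h1 => hfin B Q h hW h1

end Pool.Agent.Helper54.TY
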