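import Pool.Agent.Helper33.TY.PWord

/-!
MP_8ee768_co, project TH-Y', stage S: transport of the pair word by permutations which fix the
pair `12, 11`.
-/

set_option autoImplicit false

namespace Pool.Agent.Helper54.TY

open Finset
open Pool.Agent.Helper89.CV (OddCover ofMask)
open Pool.Agent.Helper97.CV Pool.Agent.Helper79.CV Pool.Agent.Helper33.TY
open Pool.Agent.Helper25.TY (R11 mem_R11)

theorem mapS_symm_eq {σ : Equiv.Perm (Fin 13)} {s t : Finset (Fin 13)} :
    mapS σ s = t ↔ s = mapS σ.symm t := by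
  constructor
  · rintro rfl
    rw [mapS_symm_mapS]
  · rintro rfl
    rw [mapS_mapS_symm]

theorem P1_map (σ : Equiv.Perm (Fin 13)) (h12 : σ 12 = 12) (h11 : σ 11 = 11)
    (B : Finset (Finset (Fin 13))) (s : Finset (Fin 13)) :
    P1 (mapF σ B) (mapS σ s) = P1 B s := by
  unfold P1
  refine (sum_bij (fun q _ => mapS σ q) ?_ ?_ ?_ ?_).symm
  · intro q hq
    rw [mem_filter, mem_quads] at hq ⊢
    refine ⟨by rw [card_mapS]; exact hq.1, mapS_subset.2 hq.2.1, ?_⟩
    rcases hq.2.2 with h | h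
    · exact Or.inl (by rw [← h12]; exact mem_mapS.2 h)
    · exact Or.inr (by rw [← h11]; exact mem_mapS.2 h)
  · exact fun q _ q' _ h => mapS_injective σ h
  · intro q hq
    rw [mem_filter, mem_quads] at hq
    refine ⟨mapS σ.symm q, ?_, mapS_mapS_symm σ q⟩
    rw [mem_filter, mem_quads]
    have e12 : σ.symm 12 = 12 := by rw [Equiv.symm_apply_eq, h12]
    have e11 : σ.symm 11 = 11 := by rw [Equiv.symm_apply_eq, h11]
    refine ⟨by rw [card_mapS]; exact hq.1, ?_, ?_⟩
    · have h := mapS_subset (σ := σ.symm).2 hq.2.1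
      rwa [mapS_symm_mapS] at h
    · rcases hq.2.2 with h | h
      · refine Or.inl ?_
        rw [← e12]
        exact mem_mapS.2 h
      · refine Or.inr ?_
        rw [← e11]
        exact mem_mapS.2 h
  · exact fun q _ => (ex_mapF σ B q).symm

theorem sum_mm_map {σ : Equiv.Perm (Fin 13)} (h12 : σ 12 = 12) (h11 : σ 11 = 11)
    {B : Finset (Finset (Fin 13))} (hB : OddCover B) {s : Finset (Fin 13)} (hs : s ⊆ R11) :
    ∑ u ∈ mapS σ s, (mm (mapF σ B) 12 u + mm (mapF σ B) 11 u) =
      ∑ u ∈ s, (mm B 12 u + mm B 11 u) := by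
  unfold mapS
  rw [sum_map]
  refine sum_congr rfl fun u hu => ?_
  have h1 := mem_R11.1 (hs hu)
  have n12 : (12 : Fin 13) ≠ u := by
    rintro rfl
    exact absurd h1 (by decide)
  have n11 : (11 : Fin 13) ≠ u := by
    rintro rfl
    exact absurd h1 (by decide)
  have e1 := mm_mapF hB σ n12
  have e2 := mm_mapF hB σ n11
  rw [h12] at e1
  rw [h11] at e2
  exact congrArg₂ (· + ·) e1 e2

/-- the fields of the transported word -/
theorem qf_map {σ : Equiv.Perm (Fin 13)} (h12 : σ 12 = 12) (h11 : σ 11 = 11)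
    {B : Finset (Finset (Fin 13))} (hB : OddCover B) (f : Finset (Fin 13) → ℕ)
    {s : Finset (Fin 13)} (hs : s ⊆ R11) :
    qf (mapF σ B) (fun t => f (mapS σ.symm t)) (mapS σ s) = qf B f s := by
  have l12 : link (mapF σ B) 12 = mapF σ (link B 12) := by
    conv_lhs => rw [← h12]
    exact link_mapF σ _ _
  have l11 : link (mapF σ B) 11 = mapF σ (link B 11) := by
    conv_lhs => rw [← h11]
    exact link_mapF σ _ _
  have l1211 : link (link (mapF σ B) 12) 11 = mapF σ (link (link B 12) 11) := by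
    rw [l12]
    conv_lhs => rw [← h11]
    exact link_mapF σ _ _
  unfold qf
  rw [card_mapS, l1211, l12, l11, P1_map σ h12 h11, sum_mm_map h12 h11 hB hs]
  simp only [mem_mapF, mapS_symm_mapS]

theorem mapS_subset_R11 {σ : Equiv.Perm (Fin 13)} (h12 : σ 12 = 12) (h11 : σ 11 = 11)
    {s : Finset (Fin 13)} (hs : s ⊆ R11) : mapS σ s ⊆ R11 := by
  intro a ha
  rw [mem_mapS'] at ha
  have h1 := mem_R11.1 (hs ha)
  have h2 : ∀ b : Fin 13, b ≠ 12 → b ≠ 11 → b.val < 11 := by decide
  rw [mem_R11]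
  refine h2 a ?_ ?_
  · rintro rfl
    rw [show σ.symm 12 = 12 by rw [Equiv.symm_apply_eq, h12]] at h1
    exact absurd h1 (by decide)
  · rintro rfl
    rw [show σ.symm 11 = 11 by rw [Equiv.symm_apply_eq, h11]] at h1
    exact absurd h1 (by decide)

/-- **the word of the transported cover**: a byte word whose function is transported -/
theorem pw_map {σ : Equiv.Perm (Fin 13)} (h12 : σ 12 = 12) (h11 : σ 11 = 11)
    {B : Finset (Finset (Fin 13))} (hB : OddCover B) {Q Q' : ℕ} (h : PW B Q)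
    (hQ : ∀ g : Finset (Fin 13) → ℕ, (∀ s ⊆ R11, g s < 256) → Q = bw g →
      Q' = bw fun s => g (mapS σ.symm s)) (hlt : ∀ f : Finset (Fin 13) → ℕ,
      (∀ s, f s ≤ 1) → ∀ s ⊆ R11, qf B f s < 256) : PW (mapF σ B) Q' := by
  obtain ⟨f, hf, h1, h8⟩ := h
  refine ⟨fun t => f (mapS σ.symm t), ?_, fun s => h1 _, ?_⟩
  · rw [hQ _ (hlt f h1) hf]
    refine bw_congr fun s hs => ?_
    have e12 : σ.symm 12 = 12 := by rw [Equiv.symm_apply_eq, h12]
    have e11 : σ.symm 11 = 11 := by rw [Equiv.symm_apply_eq, h11]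
    have h2 := qf_map h12 h11 hB f (mapS_subset_R11 e12 e11 hs)
    rw [mapS_mapS_symm] at h2
    exact h2.symm
  · intro u hu hfu
    have e : MM (mapF σ B) u = MM B (σ.symm u) := by
      rw [← MM_mapF hB σ, Equiv.apply_symm_apply]
    rw [e]
    have hfu' : f (mapS σ.symm {u}) = 1 := hfu
    rw [mapS_singleton] at hfu'
    refine h8 _ ?_ hfu'
    have h3 := mapS_subset_R11 (σ := σ.symm) (s := {u})
      (by rw [Equiv.symm_apply_eq, h12]) (by rw [Equiv.symm_apply_eq, h11])
      (by rw [singleton_subset_iff, mem_R11]; exact hu)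
    rw [mapS_singleton, singleton_subset_iff, mem_R11] at h3
    exact h3

end Pool.Agent.Helper54.TY
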